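import Pool.Agent.T6.H59.NN.Final

/-!
# Q2: the polylogarithmic bound with probability `1 - 1/n` fails

For every dimension `d ≥ 2 ^ 20` the number of uncovered vertices of the random nearest
neighbour tree `T_n` exceeds `c * n ^ γ` with probability at least `c * n ^ γ / n`, for some
`c, γ > 0` and every `n ≥ 1`.  Hence for all constants `C, k`, the probability that it is at most
`C * (log n) ^ k` is below `1 - 1 / n` for all large `n`.
-/

set_option autoImplicit false

namespace Pool.Agent.Results.MP_959362_pr.TailFailure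

open MeasureTheory Filter Pool.Agent.T6.H59.NN

variable {d : ℕ}

/-- the reverse Markov bound -/
lemma tail_lower {n : ℕ} (hn : 1 ≤ n) {B E : ℝ} (hB : 0 ≤ B)
    (hE : E ≤ ∫ x, ((unc x n).card : ℝ) ∂(P d)) :
    E - B ≤ n * (P d).real {x | B < ((unc x n).card : ℝ)} := by
  have hn0 : (0 : ℝ) < n := by exact_mod_cast hn
  set A : Set (ℕ → Torus d) := {x | B < ((unc x n).card : ℝ)} with hA
  have hAm : MeasurableSet A := measurableSet_lt measurable_const (measurable_card n)
  have h1 : ∀ x : ℕ → Torus d,
      ((unc x n).card : ℝ) ≤ B + Set.indicator A (fun _ => (n : ℝ)) x := by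
    intro x
    by_cases hx : x ∈ A
    · rw [Set.indicator_of_mem hx]
      have h2 : (unc x n).card ≤ n := by
        refine (Finset.card_le_card (t := Finset.range n) ?_).trans (by simp)
        intro v hv
        exact Finset.mem_range.mpr (mem_unc_iff.mp hv).1
      have : ((unc x n).card : ℝ) ≤ n := by exact_mod_cast h2
      linarith
    · rw [Set.indicator_of_notMem hx, add_zero]
      exact not_lt.mp hx
  have h3 : Integrable (fun x : ℕ → Torus d => B + Set.indicator A (fun _ => (n : ℝ)) x) (P d) :=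
    (integrable_const B).add ((integrable_const (n : ℝ)).indicator hAm)
  have h4 := hE.trans (integral_mono (integrable_card n) h3 h1)
  rw [integral_add (integrable_const B) ((integrable_const (n : ℝ)).indicator hAm),
    integral_const, integral_indicator_const _ hAm, smul_eq_mul, smul_eq_mul,
    probReal_univ, one_mul] at h4
  linarith

theorem result (d : ℕ) (hd : 2 ^ 20 ≤ d) :
    (∀ n : ℕ, Measurable fun x : ℕ → Torus d => (unc x n).card) ∧
    (∃ c : ℝ, 0 < c ∧ ∃ γ : ℝ, 0 < γ ∧ ∀ n : ℕ, 1 ≤ n →
      c * (n : ℝ) ^ γ / n ≤ (unif d).real {x | c * (n : ℝ) ^ γ < ((unc x n).card : ℝ)}) ∧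
    (∀ C k : ℝ, ∃ N : ℕ, ∀ n : ℕ, N ≤ n →
      (unif d).real {x | ((unc x n).card : ℝ) ≤ C * Real.log n ^ k} < 1 - 1 / n) := by
  refine ⟨fun n => ?_, ?_, fun C k => ?_⟩
  · have h := measurable_card (d := d) n
    refine measurable_to_countable' fun m => ?_
    have : (fun x : ℕ → Torus d => (unc x n).card) ⁻¹' {m} =
        (fun x : ℕ → Torus d => ((unc x n).card : ℝ)) ⁻¹' {(m : ℝ)} := by
      ext x
      simp
    rw [this]
    exact h (measurableSet_singleton _)
  · obtain ⟨c, hc, γ, hγ, hlow⟩ := power_lower hd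
    refine ⟨c / 2, by positivity, γ, hγ, fun n hn => ?_⟩
    have hn0 : (0 : ℝ) < n := by exact_mod_cast hn
    have h1 := tail_lower (d := d) hn (B := c / 2 * (n : ℝ) ^ γ) (by positivity) (hlow n hn)
    have hu : unif d = P d := rfl
    rw [hu, div_le_iff₀ hn0]
    have h2 : c * (n : ℝ) ^ γ - c / 2 * (n : ℝ) ^ γ = c / 2 * (n : ℝ) ^ γ := by ring
    rw [h2] at h1
    rwa [mul_comm ((P d).real _) (n : ℝ)]
  · exact eventually_atTop.mp ((main hd).2.2.2 C k)

end Pool.Agent.Results.MP_959362_pr.TailFailure
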